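import Mathlib
import Pool.Agent.R393.UE.Fam

set_option autoImplicit false

/-!
# Curves with the source `G_m` of bounded degree control the entire curves of bounded complexity

Let `U` and `Δ` be the zeros, in complex affine `n`-space, of families of polynomials `F` and `G` of
total degree at most `d` (for `Δ` empty take `G = 1`).

**Entire curves.**  An entire curve `x` is of complexity `(s, r, e)` (`CurveVec s r e x`) if there
are entire functions `X_1, …, X_s` with values in the invertible complex `r × r` matrices such that
`X_l' = M_l X_l`, where the entries of `M_l` are polynomials with complex coefficients, of degree at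
most `e` in each variable, in the entries of the `X_i`, `X_i⁻¹`, `i < l`, and the coordinates of
`x(z)` are such polynomials in the entries of all `X_i`, `X_i⁻¹`.

**Theorem.**  (1) There is a number `D n d s r e`, which depends on nothing else, such that: if all
nonconstant morphisms `G_m → U` given by Laurent polynomials with exponents between `-D n d s r e`
and `D n d s r e` map into `Δ`, then all nonconstant entire curves in `U` of complexity `(s, r, e)`
lie in `Δ`. Conversely, the morphisms `G_m → U` given by Laurent polynomials with exponents between
`-e` and `e` give entire curves `y(exp z)` of complexity `(1, 1, e)`.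

(2) Let `A` be a domain of characteristic zero and let `U` and `Δ` be given by finitely many
polynomials over `A`. If over all extensions of the field of fractions of `A` the nonconstant
morphisms `G_m → U` map into `Δ`, then for all `s, r, e` there is a nonzero element `a` of `A` such
that for all homomorphisms `φ : A → ℂ` with `φ(a) ≠ 0` all nonconstant entire curves of complexity
`(s, r, e)` in the fibre `U_φ` lie in `Δ_φ`.
-/

namespace Pool.Agent.R393.Old.UniformLogCurves

open MvPolynomial Pool.Agent.R393.UE
open Pool.Agent.R393.UA (GmIn)

/-- **Uniformity for entire curves of bounded complexity in affine varieties.** -/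
theorem result : ∃ D : ℕ → ℕ → ℕ → ℕ → ℕ → ℕ,
    (∀ (ι κ : Type) (n d s r e : ℕ) (F : ι → MvPolynomial (Fin n) ℂ)
      (G : κ → MvPolynomial (Fin n) ℂ),
      (∀ i, (F i).totalDegree ≤ d) → (∀ l, (G l).totalDegree ≤ d) →
      (GmUpTo (D n d s r e) F G → EntUpToA s r e F G) ∧ (EntUpToA 1 1 e F G → GmUpTo e F G)) ∧
    (∀ (A : Type) [CommRing A] [IsDomain A] [CharZero A] (ι κ : Type) [Finite ι] [Finite κ]
      (n : ℕ) (F : ι → MvPolynomial (Fin n) A) (G : κ → MvPolynomial (Fin n) A),
      GmIn (fun i => map (algebraMap A (FractionRing A)) (F i))
        (fun l => map (algebraMap A (FractionRing A)) (G l)) →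
      ∀ s r e : ℕ, ∃ a : A, a ≠ 0 ∧ ∀ φ : A →+* ℂ, φ a ≠ 0 →
        EntUpToA s r e (fun i => map φ (F i)) (fun l => map φ (G l))) :=
  ⟨BE, fun _ _ _ _ _ _ _ F G hF hG => ⟨ent_of_gm F G hF hG, gm_of_ent F G⟩,
    fun _ _ _ _ _ _ _ _ _ F G h s r e => family F G h s r e⟩

end Pool.Agent.R393.Old.UniformLogCurves
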